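import Pool.Agent.Lib.helper28.ErgA

set_option autoImplicit false

namespace Pool.Agent.Results.MP_894476_an.Yes

open MeasureTheory Filter Topology Pool.Agent.H28Erg

theorem result {X : Type*} [MetricSpace X] [MeasurableSpace X] [BorelSpace X]
    (μ : Measure X) [IsProbabilityMeasure μ]
    (hLeb : ∀ g : X → ℝ, Integrable g μ → ∀ᵐ x ∂μ,
      Tendsto (fun r : ℝ => (μ.real (Metric.ball x r))⁻¹ * ∫ y in Metric.ball x r, g y ∂μ)
        (𝓝[>] 0) (𝓝 (g x)))
    (T : X → X) (hT : MeasurePreserving T μ μ) (p : ENNReal) (hp : 1 < p)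
    (f : X → ℝ) (hf : MemLp f p μ) :
    ∀ᵐ x ∂μ, ∀ ε > 0, ∃ δ > 0, ∃ K : ℕ, ∀ (r : ℝ) (k : ℕ), 0 < r → r < δ → K ≤ k →
      |(μ.real (Metric.ball x r))⁻¹ *
          (∫ y in Metric.ball x r, (k : ℝ)⁻¹ * ∑ j ∈ Finset.range k, f (T^[j] y) ∂μ) -
        condExp (MeasurableSpace.invariants T) μ f x| < ε := by
  have hle := MeasurableSpace.invariants_le T
  have hfi : Integrable f μ := hf.integrable hp.le
  set g : X → ℝ := hf.1.mk f with hg
  have hfg : f =ᵐ[μ] g := hf.1.ae_eq_mk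
  have hgm : Measurable g := hf.1.stronglyMeasurable_mk.measurable
  have hgi : Integrable g μ := hfi.congr hfg
  set F := condExp (MeasurableSpace.invariants T) μ f with hF
  have hFm' : Measurable[MeasurableSpace.invariants T] F := stronglyMeasurable_condExp.measurable
  have hFm : Measurable F := hFm'.mono hle le_rfl
  have hFT : F ∘ T = F := MeasurableSpace.comp_eq_of_measurable_invariants hFm'
  have hFi : Integrable F μ := integrable_condExp
  have hB := birkhoff0 hT (h := g - F) (hgm.sub hFm) (hgi.sub hFi) (fun D a b => by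
    simp only [Pi.sub_apply]
    rw [integral_sub hgi.integrableOn hFi.integrableOn, hF, setIntegral_condExp hle hfi ⟨a, b⟩,
      integral_congr_ae (ae_restrict_of_ae hfg), sub_self])
  obtain ⟨p', hp1, hp2⟩ := exists_between hp
  have hp3 : p' ≠ ⊤ := ne_top_of_lt hp2
  have hq : 1 < p'.toReal := by
    have := (ENNReal.toReal_lt_toReal ENNReal.one_ne_top hp3).2 hp1
    simpa using this
  obtain ⟨W, hWm, hWi, hW⟩ := dom hT hgm hq
    (((hf.ae_eq hfg).mono_exponent hp2.le).integrable_norm_rpow (zero_lt_one.trans hp1).ne' hp3)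
  set u : ℕ → X → ℝ := fun k x => (k:ℝ)⁻¹ * birkhoffSum T (g - F) k x with hu
  have hum : ∀ k, Measurable (u k) := fun k => (S_meas hT.measurable (hgm.sub hFm) k).const_mul _
  have hui : ∀ k, Integrable (u k) μ := fun k => (S_int hT (hgi.sub hFi) k).const_mul _
  have hue : ∀ k : ℕ, 0 < k → ∀ x, u k x = (k:ℝ)⁻¹ * birkhoffSum T g k x - F x := by
    intro k hk x
    have : (k:ℝ) ≠ 0 := by positivity
    simp only [hu]
    rw [birkhoffSum_sub, birkhoffSum_of_comp_eq hFT]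
    simp only [Pi.smul_apply, nsmul_eq_mul]
    field_simp
  set G : ℕ → X → ENNReal := fun K x => ⨆ k, ENNReal.ofReal |u (k + K + 1) x| with hG
  have hGm : ∀ K, Measurable (G K) := fun K =>
    Measurable.iSup fun k => (continuous_abs.measurable.comp (hum _)).ennreal_ofReal
  have hGi : ∀ K, ∫⁻ x, G K x ∂μ ≠ ⊤ := by
    intro K
    have h1 : ∀ x, G K x ≤ W x + ‖F x‖ₑ := fun x => iSup_le fun k => by
      rw [hue _ (Nat.succ_pos _), Real.enorm_eq_ofReal_abs]
      refine (ENNReal.ofReal_le_ofReal (abs_sub _ _)).trans (ENNReal.ofReal_add_le.trans ?_)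
      exact add_le_add (hW x _) le_rfl
    refine ((lintegral_mono h1).trans_lt ?_).ne
    rw [lintegral_add_left hWm]
    exact ENNReal.add_lt_top.2 ⟨hWi, hFi.2⟩
  have hGI : ∀ K, Integrable (fun x => (G K x).toReal) μ := fun K =>
    integrable_toReal_of_lintegral_ne_top (hGm K).aemeasurable (hGi K)
  have hGu : ∀ K k, ∀ᵐ x ∂μ, |u (k + K + 1) x| ≤ (G K x).toReal := by
    intro K k
    filter_upwards [ae_lt_top (hGm K) (hGi K)] with x hx
    rw [← ENNReal.ofReal_le_iff_le_toReal hx.ne]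
    exact le_iSup (fun k => ENNReal.ofReal |u (k + K + 1) x|) k
  filter_upwards [hB, hLeb F hFi, ae_all_iff.2 fun K => hLeb _ (hGI K)] with x h1 h2 h3 ε hε
  obtain ⟨K, hK⟩ := h1 (ε / 4) (by positivity)
  have h4 : (G K x).toReal ≤ ε / 4 :=
    ENNReal.toReal_le_of_le_ofReal (by positivity)
      (iSup_le fun k => ENNReal.ofReal_le_ofReal (hK _ (by omega)))
  have h5 := ((Metric.tendsto_nhds.1 h2) (ε / 4) (by positivity)).and
    ((Metric.tendsto_nhds.1 (h3 K)) (ε / 4) (by positivity))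
  obtain ⟨δ, hδ, h6⟩ := (nhdsGT_basis (0:ℝ)).eventually_iff.1 h5
  refine ⟨δ, hδ, K + 1, fun r k r0 r1 hk => ?_⟩
  obtain ⟨a1, a2⟩ := h6 (show r ∈ Set.Ioo 0 δ from ⟨r0, r1⟩)
  obtain ⟨k, rfl⟩ : ∃ k', k = k' + K + 1 := ⟨k - (K + 1), by omega⟩
  rw [Real.dist_eq] at a1 a2
  set B := Metric.ball x r
  have e1 : (∫ y in B, ((k + K + 1 : ℕ) : ℝ)⁻¹ * ∑ j ∈ Finset.range (k + K + 1), f (T^[j] y) ∂μ) =
      ∫ y in B, u (k + K + 1) y ∂μ + ∫ y in B, F y ∂μ := by
    rw [← integral_add (hui _).integrableOn hFi.integrableOn]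
    refine integral_congr_ae (ae_restrict_of_ae ?_)
    filter_upwards [hT.quasiMeasurePreserving.birkhoffSum_ae_eq_of_ae_eq hfg (k + K + 1)] with y hy
    rw [hue _ (Nat.succ_pos _), ← hy, sub_add_cancel]
    rfl
  have e2 : |∫ y in B, u (k + K + 1) y ∂μ| ≤ ∫ y in B, (G K y).toReal ∂μ :=
    abs_integral_le_integral_abs.trans
      (integral_mono_ae (hui _).abs.integrableOn (hGI K).integrableOn (ae_restrict_of_ae (hGu K k)))
  have c0 : 0 ≤ (μ.real B)⁻¹ := inv_nonneg.2 measureReal_nonneg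
  have e3 := mul_le_mul_of_nonneg_left e2 c0
  rw [← abs_of_nonneg c0, ← abs_mul, abs_of_nonneg c0] at e3
  rw [e1, mul_add]
  have b1 := abs_lt.1 a1
  have b2 := abs_lt.1 a2
  have b3 := abs_le.1 e3
  rw [abs_lt]
  constructor <;> linarith [b1.1, b1.2, b2.1, b2.2, b3.1, b3.2]

end Pool.Agent.Results.MP_894476_an.Yes
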